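import Mathlib

-- merged part: Pool.Agent.Work.MP_102156_al.Hedge.Build
section
/-!
A periodic residually finite FC-group with prescribed abelianisation, built inside the product of
a cartesian product of finite perfect groups with the abelian group.
-/

set_option autoImplicit false

open Subgroup

namespace Pool.Agent.Work.MP_102156_al.Hedge

/-- `G` embeds in a restricted direct product of finite groups -/
def SDF (G : Type) [Group G] : Prop :=
  ∃ (I : Type) (H : I → Type) (_ : ∀ i, Group (H i)) (_ : ∀ i, Finite (H i))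
    (f : G →* ∀ i, H i), Function.Injective f ∧ ∀ g : G, {i : I | f g i ≠ 1}.Finite

/-- every periodic residually finite FC-group with abelianisation `A` embeds in a restricted
direct product of finite groups -/
def Forces (A : Type) [AddCommGroup A] : Prop :=
  ∀ (G : Type) [Group G], IsMulTorsion G → (∀ g : G, {h : G | IsConj g h}.Finite) →
    (∀ g : G, g ≠ 1 → ∃ N : Subgroup G, N.Normal ∧ N.FiniteIndex ∧ g ∉ N) →
    Nonempty (Additive (Abelianization G) ≃+ A) → SDF G

theorem finite_agree {I : Type} {S : I → Type} [∀ i, Finite (S i)] (s : ∀ i, S i) {F : Set I}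
    (hF : F.Finite) : {u : ∀ i, S i | ∀ i, i ∉ F → u i = s i}.Finite := by
  have := hF.to_subtype
  refine Set.Finite.of_finite_image (f := fun (u : ∀ i, S i) (i : F) => u i) (Set.toFinite _) ?_
  intro u hu v hv h
  funext i
  by_cases hi : i ∈ F
  · exact congrFun h ⟨i, hi⟩
  · rw [hu i hi, hv i hi]

section

variable {A : Type} [AddCommGroup A] {I : Type} {S : I → Type} [∀ i, Group (S i)]

/-- a family of central elements which is additive up to finitely many coordinates -/
structure Coc (z : A → ∀ i, S i) : Prop where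
  cen : ∀ a i, z a i ∈ center (S i)
  add : ∀ a b, {i | z (a + b) i ≠ z a i * z b i}.Finite

variable {z : A → ∀ i, S i}

theorem Coc.zero (hz : Coc z) : {i | z 0 i ≠ 1}.Finite :=
  (hz.add 0 0).subset fun i hi h => hi (by
    rw [add_zero] at h
    exact left_eq_mul.1 h)

/-- the group -/
def Coc.G (hz : Coc z) : Subgroup ((∀ i, S i) × Multiplicative A) where
  carrier := {p | {i | p.1 i ≠ z p.2.toAdd i}.Finite}
  one_mem' := hz.zero.subset fun _ hi h => hi h.symm
  mul_mem' := fun {p q} hp hq =>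
    ((Set.Finite.union hp hq).union (hz.add p.2.toAdd q.2.toAdd)).subset fun i hi => by
      by_contra hcon
      simp only [Set.mem_union, Set.mem_ofPred_eq, not_or, not_not] at hcon
      apply hi
      change p.1 i * q.1 i = z (p.2.toAdd + q.2.toAdd) i
      rw [hcon.2, hcon.1.1, hcon.1.2]
  inv_mem' := fun {p} hp =>
    ((Set.Finite.union hp hz.zero).union (hz.add p.2.toAdd (-p.2.toAdd))).subset fun i hi => by
      by_contra hcon
      simp only [Set.mem_union, Set.mem_ofPred_eq, not_or, not_not, add_neg_cancel] at hcon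
      apply hi
      change (p.1 i)⁻¹ = z (-p.2.toAdd) i
      rw [hcon.1.1, inv_eq_iff_mul_eq_one, ← hcon.2, hcon.1.2]

/-- the section -/
def Coc.σ (hz : Coc z) (a : A) : hz.G :=
  ⟨(z a, Multiplicative.ofAdd a), Set.finite_empty.subset fun _ hi => (hi rfl).elim⟩

/-- the projection onto the abelian group -/
def Coc.π (hz : Coc z) : hz.G →* Multiplicative A := (MonoidHom.snd _ _).comp hz.G.subtype

/-- the coordinate projections -/
def Coc.ev (hz : Coc z) (i : I) : hz.G →* S i :=
  (Pi.evalMonoidHom S i).comp ((MonoidHom.fst _ _).comp hz.G.subtype)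

open Classical in
/-- the coordinate inclusions -/
noncomputable def Coc.ι (hz : Coc z) (i : I) : S i →* hz.G :=
  ((MonoidHom.inl _ _).comp (MonoidHom.mulSingle S i)).codRestrict hz.G fun x =>
    (hz.zero.union (Set.finite_singleton i)).subset fun j hj => by
      by_contra hcon
      simp only [Set.mem_union, Set.mem_ofPred_eq, not_or, not_not, Set.mem_singleton_iff] at hcon
      apply hj
      change Pi.mulSingle (M := S) i x j = z 0 j
      rw [hcon.1, Pi.mulSingle_eq_of_ne hcon.2]

theorem Coc.ext' (hz : Coc z) {g h : hz.G} (h1 : ∀ i, hz.ev i g = hz.ev i h)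
    (h2 : hz.π g = hz.π h) : g = h :=
  Subtype.ext (Prod.ext (funext h1) h2)

theorem Coc.π_ι (hz : Coc z) (i : I) (x : S i) : hz.π (hz.ι i x) = 1 := rfl

theorem Coc.ev_ι (hz : Coc z) (i : I) (x : S i) : hz.ev i (hz.ι i x) = x := by
  classical
  change Pi.mulSingle (M := S) i x i = x
  exact Pi.mulSingle_eq_same _ _

theorem Coc.ev_ι_ne (hz : Coc z) {i j : I} (h : j ≠ i) (x : S i) : hz.ev j (hz.ι i x) = 1 := by
  classical
  change Pi.mulSingle (M := S) i x j = 1
  exact Pi.mulSingle_eq_of_ne h _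

theorem Coc.finite_ev (hz : Coc z) (g : hz.G) : {i | hz.ev i g ≠ z (hz.π g).toAdd i}.Finite := g.2

theorem Coc.finite_supp (hz : Coc z) {g : hz.G} (hg : hz.π g = 1) : {i | hz.ev i g ≠ 1}.Finite :=
  ((hz.finite_ev g).union hz.zero).subset fun i hi => by
    by_contra hcon
    simp only [Set.mem_union, Set.mem_ofPred_eq, not_or, not_not, hg, toAdd_one] at hcon
    exact hi (hcon.1.trans hcon.2)

theorem Coc.mem_of (hz : Coc z) (P : Subgroup hz.G) {g : hz.G} (hg : hz.π g = 1)
    (hP : ∀ i, hz.ev i g ≠ 1 → ∀ x, hz.ι i x ∈ P) : g ∈ P := by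
  classical
  have key : ∀ F : Finset I, (∀ i ∈ F, ∀ x, hz.ι i x ∈ P) → ∀ g : hz.G, hz.π g = 1 →
      (∀ i, i ∉ F → hz.ev i g = 1) → g ∈ P := by
    intro F
    induction F using Finset.induction_on with
    | empty =>
      intro _ g h1 h2
      rw [hz.ext' (g := g) (h := 1) (fun i => by rw [h2 i (by simp), map_one])
        (by rw [h1, map_one])]
      exact one_mem _
    | insert a F _ ih =>
      intro h0 g h1 h2
      have h3 := h0 a (Finset.mem_insert_self a F) (hz.ev a g)
      refine (mul_mem_cancel_left (inv_mem h3)).1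
        (ih (fun i hi => h0 i (Finset.mem_insert_of_mem hi)) _ ?_ fun i hi => ?_)
      · rw [map_mul, map_inv, hz.π_ι, h1, inv_one, one_mul]
      · rw [map_mul, map_inv]
        by_cases hia : i = a
        · subst hia
          rw [hz.ev_ι, inv_mul_cancel]
        · rw [hz.ev_ι_ne hia, h2 i (by simp [hia, hi]), inv_one, one_mul]
  exact key (hz.finite_supp hg).toFinset (fun i hi => hP i ((Set.Finite.mem_toFinset _).1 hi)) g hg
    fun i hi => by simpa using hi

variable [∀ i, Finite (S i)]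

theorem Coc.torsion (hz : Coc z) (hA : ∀ a : A, IsOfFinAddOrder a) : IsMulTorsion hz.G := by
  classical
  intro g
  obtain ⟨n, hn, hn1⟩ := isOfFinAddOrder_iff_nsmul_eq_zero.1 (hA (hz.π g).toAdd)
  have h1 : hz.π (g ^ n) = 1 := by
    rw [map_pow]
    exact congrArg Multiplicative.ofAdd hn1
  refine IsOfFinOrder.of_pow (n := n) ?_ hn.ne'
  generalize g ^ n = u at h1
  have hF := hz.finite_supp h1
  refine isOfFinOrder_iff_pow_eq_one.2 ⟨∏ i ∈ hF.toFinset, Nat.card (S i),
    Finset.prod_pos fun i _ => Nat.card_pos, hz.ext' (fun i => ?_) ?_⟩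
  · rw [map_pow, map_one]
    by_cases hi : hz.ev i u = 1
    · rw [hi, one_pow]
    · obtain ⟨k, hk⟩ := Finset.dvd_prod_of_mem (fun i => Nat.card (S i))
        ((Set.Finite.mem_toFinset hF).2 hi)
      rw [hk, pow_mul, pow_card_eq_one', one_pow]
  · rw [map_pow, h1, one_pow, map_one]

theorem Coc.fc (hz : Coc z) (g : hz.G) : {h : hz.G | IsConj g h}.Finite := by
  refine Set.Finite.of_finite_image (f := fun (h : hz.G) i => hz.ev i h)
    ((finite_agree (fun i => hz.ev i g) (hz.finite_ev g)).subset ?_) ?_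
  · rintro _ ⟨h, hh, rfl⟩ i hi
    obtain ⟨c, rfl⟩ := isConj_iff.1 hh
    have h1 : hz.ev i g ∈ center (S i) := by
      rw [not_not.1 hi]
      exact hz.cen _ _
    change hz.ev i (c * g * c⁻¹) = hz.ev i g
    rw [map_mul, map_mul, map_inv, mem_center_iff.1 h1, mul_inv_cancel_right]
  · intro u hu v hv h
    refine hz.ext' (fun i => congrFun h i) ?_
    rw [← isConj_iff_eq.1 (hz.π.map_isConj hu), ← isConj_iff_eq.1 (hz.π.map_isConj hv)]

theorem Coc.res (hz : Coc z) (hs : ∀ a : A, a ≠ 0 → {i | z a i ≠ 1}.Finite →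
    ∃ B : AddSubgroup A, B.FiniteIndex ∧ a ∉ B) (g : hz.G) (hg : g ≠ 1) :
    ∃ N : Subgroup hz.G, N.Normal ∧ N.FiniteIndex ∧ g ∉ N := by
  by_cases h : ∃ i, hz.ev i g ≠ 1
  · obtain ⟨i, hi⟩ := h
    exact ⟨(hz.ev i).ker, inferInstance, inferInstance, hi⟩
  push Not at h
  obtain ⟨B, hB, haB⟩ := hs (hz.π g).toAdd
    (fun h0 => hg (hz.ext' (fun i => by rw [h i, map_one])
      (by rw [map_one]; exact congrArg Multiplicative.ofAdd h0)))
    ((hz.finite_ev g).subset fun i hi h1 => hi (h1.symm.trans (h i)))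
  exact ⟨((AddMonoidHom.toMultiplicative (QuotientAddGroup.mk' B)).comp hz.π).ker, inferInstance,
    inferInstance, fun h1 => haB ((QuotientAddGroup.eq_zero_iff _).1
      (congrArg Multiplicative.toAdd h1))⟩

omit [∀ i, Finite (S i)] in
theorem Coc.ab (hz : Coc z) (hS : ∀ i, commutator (S i) = ⊤) :
    Nonempty (Additive (Abelianization hz.G) ≃+ A) := by
  have h1 : commutator hz.G = hz.π.ker := by
    refine le_antisymm (Abelianization.commutator_subset_ker _) fun g hg =>
      hz.mem_of _ hg fun i _ x => ?_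
    have h2 : (commutator (S i)).map (hz.ι i) ≤ commutator hz.G := by
      rw [map_commutator_eq]
      exact commutator_mono le_top le_top
    exact h2 ⟨x, by rw [hS]; exact mem_top x, rfl⟩
  exact ⟨MulEquiv.toAdditiveLeft ((QuotientGroup.quotientMulEquivOfEq h1).trans
    (QuotientGroup.quotientKerEquivOfSurjective hz.π fun a => ⟨hz.σ a.toAdd, rfl⟩))⟩

omit [∀ i, Finite (S i)] in
theorem Coc.ev_σ (hz : Coc z) (a : A) (i : I) : hz.ev i (hz.σ a) = z a i := rfl

omit [∀ i, Finite (S i)] in
theorem Coc.π_σ (hz : Coc z) (a : A) : hz.π (hz.σ a) = Multiplicative.ofAdd a := rfl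

end

/-- a point-finite map into a product of finite groups which is a homomorphism with countable
kernel on `B` -/
def Rep {A : Type} [AddCommGroup A] (B : AddSubgroup A) : Prop :=
  ∃ (J : Type) (H : J → Type) (_ : ∀ j, Group (H j)) (_ : ∀ j, Finite (H j)) (ψ : A → ∀ j, H j),
    (∀ a ∈ B, ∀ b ∈ B, ψ (a + b) = ψ a * ψ b) ∧ {a | ψ a = 1}.Countable ∧
      ∀ a, {j | ψ a j ≠ 1}.Finite

theorem Coc.rep {A : Type} [AddCommGroup A] {I : Type} {S : I → Type} [∀ i, Group (S i)]
    [∀ i, Finite (S i)] {z : A → ∀ i, S i} (hz : Coc z) (h : SDF hz.G) (B : AddSubgroup A)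
    {I₁ : Set I} (hI : I₁.Countable) (hB : ∀ a ∈ B, ∀ i, i ∉ I₁ → z a i = 1) : Rep B := by
  obtain ⟨J, H, _, _, e, he, hfin⟩ := h
  let J₀ : Set J := ⋃ i ∈ I₁, ⋃ x : S i, {j | e (hz.ι i x) j ≠ 1}
  have hJ : J₀.Countable := hI.biUnion fun i _ => Set.countable_iUnion fun x => (hfin _).countable
  let e' : hz.G →* ∀ j : {j // j ∉ J₀}, H j :=
    MonoidHom.pi fun j => (Pi.evalMonoidHom H j).comp e
  refine ⟨{j // j ∉ J₀}, fun j => H j, inferInstance, inferInstance, fun a => e' (hz.σ a),
    fun a ha b hb => ?_, ?_, fun a => ?_⟩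
  · have h1 : (hz.σ (a + b))⁻¹ * (hz.σ a * hz.σ b) ∈ e'.ker := by
      refine hz.mem_of _ ?_ fun i hi x => ?_
      · rw [map_mul, map_mul, map_inv, hz.π_σ, hz.π_σ, hz.π_σ, ofAdd_add, inv_mul_cancel]
      · have hi1 : i ∈ I₁ := by
          by_contra hi1
          apply hi
          rw [map_mul, map_mul, map_inv, hz.ev_σ, hz.ev_σ, hz.ev_σ, hB a ha i hi1, hB b hb i hi1,
            hB _ (add_mem ha hb) i hi1, inv_one, one_mul, one_mul]
        funext j
        by_contra hj
        exact j.2 (Set.mem_biUnion hi1 (Set.mem_iUnion.2 ⟨x, hj⟩))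
    rw [MonoidHom.mem_ker, map_mul, map_mul, map_inv, inv_mul_eq_one] at h1
    exact h1
  · refine Set.countable_of_injective_of_countable_image (f := fun a => e (hz.σ a))
      (fun a _ b _ hab => congrArg hz.π (he hab)) ?_
    refine ((Set.countable_ofPred_finite_subset hJ).biUnion fun F hF =>
      (finite_agree (S := H) 1 hF.1).countable).mono ?_
    rintro _ ⟨a, ha, rfl⟩
    refine Set.mem_biUnion (x := {j | e (hz.σ a) j ≠ 1}) ⟨hfin _, fun j hj => ?_⟩
      fun j hj => not_not.1 hj
    by_contra hj0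
    exact hj (congrFun ha ⟨j, hj0⟩)
  · exact (hfin (hz.σ a)).preimage (f := fun j : {j // j ∉ J₀} => (j : J))
      Subtype.val_injective.injOn

end Pool.Agent.Work.MP_102156_al.Hedge
end

-- merged part: Pool.Agent.Work.MP_102156_al.Hedge.Perfect
section
/-!
Finite perfect groups with a prescribed cyclic central subgroup.
-/

set_option autoImplicit false

open Matrix Subgroup
open scoped commutatorElement

namespace Pool.Agent.Work.MP_102156_al.Hedge

/-- the circle group `ℚ / ℤ` -/
abbrev TT : Type := AddCircle (1 : ℚ)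

section

variable {R : Type} [CommRing R]

/-- an elementary matrix -/
def el (i j : Fin 5) (h : i ≠ j) (c : R) : SpecialLinearGroup (Fin 5) R :=
  ⟨transvection i j c, det_transvection_of_ne i j h c⟩

theorem el_add (i j : Fin 5) (h : i ≠ j) (c d : R) : el i j h (c + d) = el i j h c * el i j h d :=
  Subtype.ext (transvection_mul_transvection_same i j h c d).symm

theorem el_comm {i j k l : Fin 5} (h : i ≠ j) (h' : k ≠ l) (h1 : j ≠ k) (h2 : l ≠ i) (c d : R) :
    el i j h c * el k l h' d = el k l h' d * el i j h c := by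
  apply Subtype.ext
  change transvection i j c * transvection k l d = transvection k l d * transvection i j c
  simp only [transvection, add_mul, mul_add, one_mul, mul_one,
    single_mul_single_of_ne _ _ _ _ h1, single_mul_single_of_ne _ _ _ _ h2]
  abel

theorem el_commutator {i j k : Fin 5} (h : i ≠ j) (h1 : i ≠ k) (h2 : k ≠ j) (c : R) :
    ⁅el i k h1 c, el k j h2 1⁆ = el i j h c := by
  rw [commutatorElement_def, mul_inv_eq_iff_eq_mul, mul_inv_eq_iff_eq_mul]
  apply Subtype.ext
  change transvection i k c * transvection k j 1 =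
    transvection i j c * transvection k j 1 * transvection i k c
  simp only [transvection, add_mul, mul_add, one_mul, mul_one, single_mul_single_same,
    single_mul_single_of_ne _ _ _ _ h.symm, single_mul_single_of_ne _ _ _ _ h2.symm, add_zero]
  abel

variable (R) in
/-- the generators -/
def gens : Set (SpecialLinearGroup (Fin 5) R) :=
  {x | ∃ (i j : Fin 5) (h : i ≠ j) (c : R), i ≠ 4 ∧ j ≠ 0 ∧ el i j h c = x}

theorem commutator_gens : _root_.commutator (Subgroup.closure (gens R)) = ⊤ := by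
  apply Subgroup.map_injective (Subgroup.closure (gens R)).subtype_injective
  rw [map_commutator_eq, range_subtype, ← MonoidHom.range_eq_map, range_subtype]
  refine le_antisymm (commutator_le.2 fun a ha b hb => ?_) ((Subgroup.closure_le _).2 ?_)
  · exact mul_mem (mul_mem (mul_mem ha hb) (inv_mem ha)) (inv_mem hb)
  · rintro _ ⟨i, j, h, c, hi, hj, rfl⟩
    obtain ⟨k, h1, h2, h3, h4⟩ : ∃ k : Fin 5, i ≠ k ∧ k ≠ j ∧ k ≠ 0 ∧ k ≠ 4 := by
      revert i j
      decide
    rw [← el_commutator h h1 h2]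
    exact commutator_mem_commutator (Subgroup.subset_closure ⟨i, k, h1, c, hi, h3, rfl⟩)
      (Subgroup.subset_closure ⟨k, j, h2, 1, h4, hj, rfl⟩)

end

theorem exists_perfect_zmod (n : ℕ) (hn : n ≠ 0) :
    ∃ (S : Type) (_ : Group S) (_ : Finite S), _root_.commutator S = ⊤ ∧ ∃ z : ZMod n → S,
      (∀ c, z c ∈ center S) ∧ (∀ c d, z (c + d) = z c * z d) ∧ ∀ c, z c = 1 → c = 0 := by
  have : NeZero n := ⟨hn⟩
  have h04 : (0 : Fin 5) ≠ 4 := by decide
  refine ⟨Subgroup.closure (gens (ZMod n)), inferInstance, inferInstance, commutator_gens,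
    fun c => ⟨el 0 4 h04 c, Subgroup.subset_closure ⟨0, 4, h04, c, h04, h04.symm, rfl⟩⟩, fun c => ?_,
    fun c d => Subtype.ext (el_add 0 4 h04 c d), fun c hc => ?_⟩
  · rw [mem_center_iff]
    intro g
    have : Subgroup.closure (gens (ZMod n)) ≤ Subgroup.centralizer {el 0 4 h04 c} := by
      rw [Subgroup.closure_le]
      rintro _ ⟨i, j, h, d, hi, hj, rfl⟩
      exact mem_centralizer_singleton_iff.2 (el_comm h h04 hj hi.symm d c)
    exact Subtype.ext (mem_centralizer_singleton_iff.1 (this g.2))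
  · have h1 : transvection (0 : Fin 5) 4 c = 1 := congrArg (fun x => x.1.1) hc
    have h2 := congrFun (congrFun h1 0) 4
    simpa [transvection] using h2

theorem exists_perfect (m : ℕ) (hm : m ≠ 0) :
    ∃ (S : Type) (_ : Group S) (_ : Finite S), _root_.commutator S = ⊤ ∧ ∃ ζ : TT → S,
      (∀ t, ζ t ∈ center S) ∧ (∀ s t, m • s = 0 → m • t = 0 → ζ (s + t) = ζ s * ζ t) ∧
      ∀ t, m • t = 0 → ζ t = 1 → t = 0 := by
  classical
  have : Fact ((0 : ℚ) < 1) := ⟨one_pos⟩
  let V : AddSubgroup TT := AddSubgroup.torsionBy TT (m : ℤ)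
  have hV : ∀ x, x ∈ V ↔ m • x = 0 := fun x => AddSubgroup.torsionBy.nsmul_iff
  have hfin : Finite V := ((AddCircle.finite_torsion (1 : ℚ) (Nat.pos_of_ne_zero hm)).subset
    fun x hx => (hV x).1 hx).to_subtype
  have hm' : (m : ℚ) ≠ 0 := by exact_mod_cast hm
  have hcyc : IsAddCyclic V := by
    refine ⟨⟨⟨((1 / m : ℚ) : TT), (hV _).2 ?_⟩, fun x => ?_⟩⟩
    · rw [← AddCircle.coe_nsmul, nsmul_eq_mul, mul_one_div_cancel hm', AddCircle.coe_period]
    · obtain ⟨k, -, hk⟩ := (AddCircle.nsmul_eq_zero_iff (Nat.pos_of_ne_zero hm)).1 ((hV _).1 x.2)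
      refine ⟨k, Subtype.ext ?_⟩
      change (k : ℤ) • ((1 / m : ℚ) : TT) = x
      rw [← hk, natCast_zsmul, ← AddCircle.coe_nsmul, nsmul_eq_mul, mul_one, mul_one_div]
  obtain ⟨S, _, _, h1, z, h2, h3, h4⟩ := exists_perfect_zmod (Nat.card V) Nat.card_pos.ne'
  let e := (zmodAddCyclicAddEquiv hcyc).symm
  refine ⟨S, inferInstance, inferInstance, h1,
    fun t => if h : m • t = 0 then z (e ⟨t, (hV t).2 h⟩) else 1, fun t => ?_,
    fun s t hs ht => ?_, fun t ht h => ?_⟩
  · dsimp only
    split_ifs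
    exacts [h2 _, one_mem _]
  · dsimp only
    rw [dif_pos hs, dif_pos ht, dif_pos (by rw [smul_add, hs, ht, add_zero]), ← h3, ← map_add]
    rfl
  · dsimp only at h
    rw [dif_pos ht] at h
    exact congrArg Subtype.val (e.map_eq_zero_iff.1 (h4 _ h))

end Pool.Agent.Work.MP_102156_al.Hedge
end

-- merged part: Pool.Agent.Work.MP_102156_al.Hedge.Emb
section
/-!
A torsion abelian group embeds in a direct sum of copies of `ℚ / ℤ`.
-/

set_option autoImplicit false

namespace Pool.Agent.Work.MP_102156_al.Hedge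

theorem exists_atom_le {A : Type} [AddCommGroup A] (hA : ∀ a : A, IsOfFinAddOrder a)
    {K : Submodule ℤ A} (hK : K ≠ ⊥) : ∃ N : Submodule ℤ A, IsAtom N ∧ N ≤ K := by
  obtain ⟨x, hx, hx0⟩ := (Submodule.ne_bot_iff K).1 hK
  have h1 : ((Submodule.span ℤ {x} : Submodule ℤ A) : Set A).Finite := by
    refine (hA x).finite_zmultiples.subset fun y hy => ?_
    obtain ⟨n, rfl⟩ := Submodule.mem_span_singleton.1 hy
    exact ⟨n, rfl⟩
  have h2 : {N : Submodule ℤ A | N ≠ ⊥ ∧ N ≤ Submodule.span ℤ {x}}.Finite :=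
    (h1.finite_subsets.preimage SetLike.coe_injective.injOn).subset fun N hN => hN.2
  obtain ⟨N, hN⟩ := h2.exists_minimal ⟨Submodule.span ℤ {x}, by simpa using hx0, le_rfl⟩
  refine ⟨N, ⟨hN.1.1, fun M hM => ?_⟩, hN.1.2.trans ((Submodule.span_singleton_le_iff_mem _ _).2 hx)⟩
  by_contra h
  exact hM.not_ge (hN.2 ⟨h, hM.le.trans hN.1.2⟩ hM.le)

theorem exists_simple_emb (M : Type) [AddCommGroup M] [IsSimpleModule ℤ M] :
    ∃ χ : M →+ TT, Function.Injective χ := by
  have := IsSimpleModule.nontrivial ℤ M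
  obtain ⟨x, hx⟩ := exists_ne (0 : M)
  obtain ⟨c, hc⟩ := CharacterModule.exists_character_apply_ne_zero_of_ne_zero hx
  let c' : M →+ TT := c
  refine ⟨c', LinearMap.injective_of_ne_zero (f := c'.toIntLinearMap) fun h => hc ?_⟩
  exact congrArg (fun g : M →ₗ[ℤ] TT => g x) h

theorem exists_emb {A : Type} [AddCommGroup A] (hA : ∀ a : A, IsOfFinAddOrder a) :
    ∃ (X : Type) (φ : A →+ (X →₀ TT)), Function.Injective φ := by
  classical
  let S : Submodule ℤ A := ⨆ N ∈ {N : Submodule ℤ A | IsAtom N}, N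
  have hS : IsSemisimpleModule ℤ S :=
    isSemisimpleModule_biSup_of_isSemisimpleModule_submodule fun N hN => by
      have := isSimpleModule_iff_isAtom.2 hN
      infer_instance
  obtain ⟨s, e, -, hs⟩ := IsSemisimpleModule.exists_linearEquiv_dfinsupp ℤ S
  choose χ hχ using fun m : s => exists_simple_emb m.1
  let g : S →+ (s →₀ TT) :=
    (finsuppAddEquivDFinsupp (ι := s) (M := TT)).symm.toAddMonoidHom.comp
      ((DFinsupp.mapRange.addMonoidHom χ).comp e.toAddEquiv.toAddMonoidHom)
  have hg : Function.Injective g := by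
    refine (finsuppAddEquivDFinsupp (ι := s) (M := TT)).symm.injective.comp
      (Function.Injective.comp (g := DFinsupp.mapRange.addMonoidHom χ) ?_ e.injective)
    intro a b hab
    ext1 i
    exact hχ i (congrArg (fun v => v i) hab)
  have hdiv : DivisibleBy (s →₀ TT) ℤ := divisibleByOfSMulRightSurj _ _ fun {n} hn v =>
    ⟨v.mapRange (fun t => if t = 0 then 0 else DivisibleBy.div t n) (if_pos rfl), by
      ext i
      by_cases h : v i = 0 <;> simp [h, DivisibleBy.div_cancel _ hn]⟩
  obtain ⟨φ, hφ⟩ := (Module.Baer.of_divisible (s →₀ TT)).extension_property_addMonoidHom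
    S.subtype.toAddMonoidHom S.subtype_injective g
  refine ⟨s, φ, ?_⟩
  have : LinearMap.ker φ.toIntLinearMap = ⊥ := by
    by_contra h
    obtain ⟨N, hN, hNK⟩ := exists_atom_le hA h
    obtain ⟨x, hx, hx0⟩ := (Submodule.ne_bot_iff N).1 hN.1
    have hxS : x ∈ S := le_biSup (f := fun N : Submodule ℤ A => N) hN hx
    have h1 : g ⟨x, hxS⟩ = 0 := by
      rw [← hφ]
      exact hNK hx
    exact hx0 (congrArg Subtype.val (hg (h1.trans (map_zero g).symm)))
  exact LinearMap.ker_eq_bot.1 this

end Pool.Agent.Work.MP_102156_al.Hedge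
end

-- merged part: Pool.Agent.Work.MP_102156_al.Hedge.Kulikov
section
/-!
Kulikov's theorem: an abelian group that embeds in a restricted product of finite groups is a
direct sum of cyclic groups.
-/

set_option autoImplicit false

namespace Pool.Agent.Work.MP_102156_al.Hedge

theorem exists_graded {F V : Type*} [Field F] [AddCommGroup V] [Module F V]
    (U S' : ℕ → Submodule F V) (hU0 : U 0 = ⊤) (hS' : Monotone S')
    (hd : ∀ n, Disjoint (S' n) (U n)) (hex : ∀ v, ∃ n, v ∈ S' n) :
    ∃ S : ℕ → Submodule F V, Monotone S ∧ (∀ n, Disjoint (S n) (U n)) ∧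
      ∀ v, v ∈ ⨆ n, S (n + 1) ⊓ U n := by
  classical
  obtain ⟨S, hS'S, hmax⟩ := zorn_le_nonempty₀
    {S : ℕ → Submodule F V | Monotone S ∧ ∀ n, Disjoint (S n) (U n)} (by
      intro c hc hchain y hy
      refine ⟨fun n => ⨆ S : c, S.1 n, ⟨fun a b hab => iSup_mono fun S => (hc S.2).1 hab,
        fun n => ?_⟩, fun z hz n => le_iSup (fun S : c => S.1 n) ⟨z, hz⟩⟩
      rw [Submodule.disjoint_def]
      intro x hx hxU
      have : Nonempty c := ⟨⟨y, hy⟩⟩
      obtain ⟨S, hS⟩ := (Submodule.mem_iSup_of_directed _ (fun a b => by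
        rcases hchain.total a.2 b.2 with h | h
        · exact ⟨b, h n, le_rfl⟩
        · exact ⟨a, le_rfl, h n⟩)).1 hx
      exact Submodule.disjoint_def.1 ((hc S.2).2 n) x hS hxU) S' ⟨hS', hd⟩
  obtain ⟨hm, hdis⟩ := hmax.prop
  refine ⟨S, hm, hdis, fun v => ?_⟩
  obtain ⟨n, hn⟩ := hex v
  have key : ∀ r, S r ≤ ⨆ n, S (n + 1) ⊓ U n := by
    intro r
    induction r with
    | zero =>
      have := hdis 0
      rw [hU0, disjoint_top] at this
      rw [this]
      exact bot_le
    | succ r ih =>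
      intro a ha
      by_cases har : a ∈ S r
      · exact ih har
      have hle : S r ⊔ F ∙ a ≤ S (r + 1) :=
        sup_le (hm (Nat.le_succ r)) ((Submodule.span_singleton_le_iff_mem _ _).2 ha)
      have hnd : ¬ Disjoint (S r ⊔ F ∙ a) (U r) := by
        intro hdis'
        have h1 : Function.update S r (S r ⊔ F ∙ a) ≤ S := hmax.le_of_ge ⟨?_, fun k => ?_⟩
          (le_update_self_iff.2 le_sup_left)
        · have h2 := h1 r
          rw [Function.update_self] at h2
          exact har (h2 (Submodule.mem_sup_right (Submodule.mem_span_singleton_self a)))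
        · refine monotone_nat_of_le_succ fun i => ?_
          by_cases h1 : i = r
          · rw [h1, Function.update_self, Function.update_of_ne (Nat.succ_ne_self r)]
            exact hle
          · rw [Function.update_of_ne h1]
            by_cases h2 : i + 1 = r
            · rw [h2, Function.update_self]
              exact (hm (by omega)).trans le_sup_left
            · rw [Function.update_of_ne h2]
              exact hm (Nat.le_succ i)
        · by_cases hk : k = r
          · rw [hk, Function.update_self]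
            exact hdis'
          · rw [Function.update_of_ne hk]
            exact hdis k
      rw [Submodule.disjoint_def] at hnd
      push Not at hnd
      obtain ⟨b, hb, hbU, hb0⟩ := hnd
      have hb' : b ∈ ⨆ n, S (n + 1) ⊓ U n := Submodule.mem_iSup_of_mem r ⟨hle hb, hbU⟩
      obtain ⟨g, hg, w, hw, rfl⟩ := Submodule.mem_sup.1 hb
      obtain ⟨c, rfl⟩ := Submodule.mem_span_singleton.1 hw
      have hc : c ≠ 0 := by
        rintro rfl
        rw [zero_smul, add_zero] at hb0 hbU
        exact hb0 (Submodule.disjoint_def.1 (hdis r) g hg hbU)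
      exact (Submodule.smul_mem_iff _ hc).1 ((Submodule.add_mem_iff_right _ (ih hg)).1 hb')
  exact key n (hS'S n hn)

theorem exists_graded_basis {F V : Type} [Field F] [AddCommGroup V] [Module F V]
    (U S' : ℕ → Submodule F V) (hU : Antitone U) (hU0 : U 0 = ⊤) (hS' : Monotone S')
    (hd : ∀ n, Disjoint (S' n) (U n)) (hex : ∀ v, ∃ n, v ∈ S' n) :
    ∃ (ι : Type) (h : ι → ℕ) (v : ι → V), LinearIndependent F v ∧ (∀ i, v i ∈ U (h i)) ∧
      ∀ k, U k ≤ Submodule.span F (v '' {i | k ≤ h i}) := by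
  obtain ⟨S, hm, hdis, hsp⟩ := exists_graded U S' hU0 hS' hd hex
  set T : ℕ → Submodule F V := fun n => S (n + 1) ⊓ U n with hT
  let b := fun n => Module.Basis.ofVectorSpace F (T n)
  have hspan : ∀ n, Submodule.span F (Set.range fun i => (b n i : V)) = T n := fun n => by
    have := congrArg (Submodule.map (T n).subtype) (b n).span_eq
    rwa [Submodule.map_span, ← Set.range_comp, Submodule.map_subtype_top] at this
  have hlow : ∀ j i, j < i → T j ≤ S i := fun j i h => inf_le_left.trans (hm h)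
  have hhigh : ∀ j i, i ≤ j → T j ≤ U i := fun j i h => inf_le_right.trans (hU h)
  refine ⟨Σ n, Module.Basis.ofVectorSpaceIndex F (T n), fun i => i.1, fun i => b i.1 i.2, ?_,
    fun i => (b i.1 i.2).2.2, fun k x hx => ?_⟩
  · refine linearIndependent_iUnion_finite (f := fun n i => (b n i : V))
      (fun n => (b n).linearIndependent.map' (T n).subtype (Submodule.ker_subtype _))
      fun i t _ hi => ?_
    simp only [hspan]
    refine Disjoint.mono_right (c := S i ⊔ U (i + 1)) (iSup₂_le fun j hj => ?_) ?_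
    · rcases lt_trichotomy j i with h | h | h
      · exact (hlow j i h).trans le_sup_left
      · exact (hi (h ▸ hj)).elim
      · exact (hhigh j (i + 1) h).trans le_sup_right
    · rw [Submodule.disjoint_def]
      intro x hx hx'
      obtain ⟨y, hy, z, hz, rfl⟩ := Submodule.mem_sup.1 hx'
      have h1 : z = 0 := Submodule.disjoint_def.1 (hdis (i + 1)) z
        ((Submodule.add_mem_iff_right _ (hm (Nat.le_succ i) hy)).1 hx.1) hz
      rw [h1, add_zero] at hx ⊢
      exact Submodule.disjoint_def.1 (hdis i) y hy hx.2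
  · set W := Submodule.span F ((fun i : Σ n, Module.Basis.ofVectorSpaceIndex F (T n) =>
      (b i.1 i.2 : V)) '' {i | k ≤ i.1}) with hW
    have h1 : (⨆ n, T n) ≤ S k ⊔ (W ⊓ U k) := by
      refine iSup_le fun n => ?_
      rcases lt_or_ge n k with h | h
      · exact (hlow n k h).trans le_sup_left
      · refine (le_inf ?_ (hhigh n k h)).trans le_sup_right
        rw [← hspan]
        refine Submodule.span_mono ?_
        rintro _ ⟨i, rfl⟩
        exact ⟨⟨n, i⟩, h, rfl⟩
    obtain ⟨y, hy, z, hz, rfl⟩ := Submodule.mem_sup.1 (h1 (hsp x))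
    have h2 : y = 0 := Submodule.disjoint_def.1 (hdis k) y hy
      ((Submodule.add_mem_iff_left _ hz.2).1 hx)
    rw [h2, zero_add]
    exact hz.1

theorem exists_pbasis {Q : Type} [AddCommGroup Q] (p : ℕ) (hp : p.Prime)
    (S' : ℕ → AddSubgroup Q) (hS' : Monotone S')
    (hd : ∀ n, ∀ y, p ^ n • y ∈ S' n → p ^ (n + 1) • y = 0 → p ^ n • y = 0)
    (hex : ∀ x, ∃ n, x ∈ S' n) :
    ∃ (ι : Type) (a : ι → Q), (∀ i, ∃ k, p ^ k • a i = 0) ∧
      (∀ (s : Finset ι) (c : ι → ℤ), ∑ i ∈ s, c i • a i = 0 → ∀ i ∈ s, c i • a i = 0) ∧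
      ∀ k x, p ^ k • x = 0 → x ∈ AddSubgroup.closure (Set.range a) := by
  classical
  have := Fact.mk hp
  let V : AddSubgroup Q := AddSubgroup.torsionBy Q (p : ℤ)
  have hV : ∀ x, x ∈ V ↔ p • x = 0 := fun x => AddSubgroup.torsionBy.nsmul_iff
  let : Module (ZMod p) V := AddSubgroup.torsionBy.zmodModule
  let U : ℕ → Submodule (ZMod p) V := fun n => AddSubgroup.toZModSubmodule p
    ((nsmulAddMonoidHom (p ^ n) : Q →+ Q).range.addSubgroupOf V)
  have hUm : ∀ n (x : V), x ∈ U n ↔ ∃ y : Q, p ^ n • y = x := fun n x => Iff.rfl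
  obtain ⟨ι, h, v, hv1, hv2, hv3⟩ := exists_graded_basis U
    (fun n => AddSubgroup.toZModSubmodule p ((S' n).addSubgroupOf V))
    (antitone_nat_of_succ_le fun n x hx => by
      obtain ⟨y, hy⟩ := (hUm _ x).1 hx
      exact (hUm _ x).2 ⟨p • y, by rw [← mul_nsmul', ← pow_succ, hy]⟩)
    (Submodule.eq_top_iff'.2 fun x => (hUm _ x).2 ⟨x, by simp⟩)
    (fun a b hab x hx => hS' hab hx)
    (fun n => Submodule.disjoint_def.2 fun x hx hx' => by
      obtain ⟨y, hy⟩ := (hUm _ x).1 hx'
      refine Subtype.ext (hy.symm.trans (hd n y (hy ▸ hx) ?_))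
      rw [pow_succ, mul_nsmul, hy]
      exact (hV _).1 x.2)
    (fun x => hex x)
  choose a ha using fun i => (hUm _ _).1 (hv2 i)
  have ha0 : ∀ i, p ^ (h i + 1) • a i = 0 := fun i => by
    rw [pow_succ, mul_nsmul, ha]
    exact (hV _).1 (v i).2
  have hord : ∀ i, addOrderOf (a i) = p ^ (h i + 1) := fun i =>
    addOrderOf_eq_prime_pow (fun h0 => hv1.ne_zero i (Subtype.ext ((ha i).symm.trans h0))) (ha0 i)
  refine ⟨ι, a, fun i => ⟨_, ha0 i⟩, fun s c hc => ?_, fun k => ?_⟩
  · have key : ∀ k, (∀ i ∈ s, ((p : ℤ) ^ k * c i) • a i = 0) → ∀ i ∈ s, c i • a i = 0 := by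
      intro k
      induction k with
      | zero => simp
      | succ k ih =>
        intro hk
        refine ih ?_
        have h1 : ∀ i, ∃ d : ℤ, i ∈ s → ((p : ℤ) ^ k * c i) • a i = d • (v i : Q) := by
          intro i
          by_cases hi : i ∈ s
          · have h2 := addOrderOf_dvd_iff_zsmul_eq_zero.2 (hk i hi)
            rw [hord, pow_succ', pow_succ', mul_assoc] at h2
            push_cast at h2
            obtain ⟨d, hd⟩ := Int.dvd_of_mul_dvd_mul_left (by exact_mod_cast hp.ne_zero) h2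
            refine ⟨d, fun _ => ?_⟩
            rw [hd, mul_comm, mul_smul, ← ha, ← natCast_zsmul]
            push_cast
            rfl
          · exact ⟨0, fun h => (hi h).elim⟩
        choose d hd using h1
        have h3 : ∑ i ∈ s, (d i : ZMod p) • v i = 0 := by
          apply Subtype.ext
          rw [AddSubgroup.val_finsetSum, AddSubgroup.coe_zero]
          have h4 := congrArg (fun x => ((p : ℤ) ^ k) • x) hc
          simp only [Finset.smul_sum, smul_smul, smul_zero] at h4
          rw [← h4]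
          exact Finset.sum_congr rfl fun i hi => by
            rw [Int.cast_smul_eq_zsmul, hd i hi, AddSubgroup.coe_zsmul]
        intro i hi
        rw [hd i hi, ← AddSubgroup.coe_zsmul, ← Int.cast_smul_eq_zsmul (ZMod p),
          linearIndependent_iff'.1 hv1 s _ h3 i hi, zero_smul, AddSubgroup.coe_zero]
    refine key (s.sup h + 1) fun i hi => addOrderOf_dvd_iff_zsmul_eq_zero.1 ?_
    rw [hord]
    push_cast
    exact (pow_dvd_pow _ (Nat.succ_le_succ (Finset.le_sup (f := h) hi))).mul_right _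
  · set L := AddSubgroup.closure (Set.range a) with hL
    induction k with
    | zero =>
      intro x hx
      rw [pow_zero, one_nsmul] at hx
      rw [hx]
      exact zero_mem _
    | succ k ih =>
      intro x hx
      have h1 : p ^ k • x ∈ V := (hV _).2 (by rw [← mul_nsmul, ← pow_succ, hx])
      have h2 : Submodule.span (ZMod p) (v '' {i | k ≤ h i}) ≤ AddSubgroup.toZModSubmodule p
          ((L.map (nsmulAddMonoidHom (p ^ k))).addSubgroupOf V) := by
        rw [Submodule.span_le]
        rintro _ ⟨i, hi, rfl⟩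
        refine ⟨p ^ (h i - k) • a i,
          nsmul_mem (AddSubgroup.subset_closure (Set.mem_range_self i)) _, ?_⟩
        change p ^ k • p ^ (h i - k) • a i = v i
        rw [← mul_nsmul, ← pow_add, Nat.sub_add_cancel hi, ha]
      obtain ⟨l, hl, hlx⟩ := h2 (hv3 k ((hUm k ⟨_, h1⟩).2 ⟨x, rfl⟩))
      have h3 : x - l ∈ L := ih _ (by
        rw [smul_sub, sub_eq_zero]
        exact hlx.symm)
      simpa using add_mem h3 hl

theorem directSum_of_family {Q ι : Type} [AddCommGroup Q] (a : ι → Q)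
    (hind : ∀ (s : Finset ι) (c : ι → ℤ), ∑ i ∈ s, c i • a i = 0 → ∀ i ∈ s, c i • a i = 0)
    (hspan : ∀ x, x ∈ AddSubgroup.closure (Set.range a)) :
    ∃ (J : Type) (C : J → Type) (_ : ∀ j, AddCommGroup (C j)),
      (∀ j, IsAddCyclic (C j)) ∧ Nonempty (Q ≃+ Π₀ j, C j) := by
  classical
  refine ⟨ι, fun i => AddSubgroup.zmultiples (a i), inferInstance, fun i => inferInstance,
    ⟨(AddEquiv.ofBijective (DFinsupp.sumAddHom fun i => (AddSubgroup.zmultiples (a i)).subtype)
      ⟨?_, ?_⟩).symm⟩⟩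
  · rw [injective_iff_map_eq_zero]
    intro w hw
    choose c hc using fun i => AddSubgroup.mem_zmultiples_iff.1 (w i).2
    rw [DFinsupp.sumAddHom_apply, DFinsupp.sum] at hw
    have h1 := hind w.support c (by
      rw [← hw]
      exact Finset.sum_congr rfl fun i _ => hc i)
    ext i
    by_cases hi : i ∈ w.support
    · exact (hc i).symm.trans (h1 i hi)
    · rw [DFinsupp.notMem_support_iff.1 hi]
      rfl
  · rw [← AddMonoidHom.range_eq_top, eq_top_iff]
    intro x _
    refine (AddSubgroup.closure_le _).2 ?_ (hspan x)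
    rintro _ ⟨i, rfl⟩
    exact ⟨DFinsupp.single i ⟨a i, AddSubgroup.mem_zmultiples _⟩, by
      rw [DFinsupp.sumAddHom_single]
      rfl⟩

theorem directSum_of_chain {Q : Type} [AddCommGroup Q] (ht : ∀ x : Q, IsOfFinAddOrder x)
    (S' : ℕ → AddSubgroup Q) (hS' : Monotone S')
    (hd : ∀ p : ℕ, p.Prime → ∀ n, ∀ y, p ^ n • y ∈ S' n → p ^ (n + 1) • y = 0 → p ^ n • y = 0)
    (hex : ∀ x, ∃ n, x ∈ S' n) :
    ∃ (J : Type) (C : J → Type) (_ : ∀ j, AddCommGroup (C j)),
      (∀ j, IsAddCyclic (C j)) ∧ Nonempty (Q ≃+ Π₀ j, C j) := by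
  classical
  choose ι a h1 h2 h3 using fun p : Nat.Primes => exists_pbasis p.1 p.2 S' hS' (hd p.1 p.2) hex
  choose k hk using h1
  refine directSum_of_family (fun i : Σ p, ι p => a i.1 i.2) (fun s c hc => ?_) fun x => ?_
  · rintro ⟨p, i⟩ hi
    set N : ℕ := ∏ j ∈ s.filter (fun j => j.1 ≠ p), j.1.1 ^ k j.1 j.2 with hN
    have hcop : (p.1 ^ k p i).Coprime N := Nat.Coprime.prod_right fun j hj =>
      Nat.Coprime.pow _ _ ((Nat.coprime_primes p.2 j.1.2).2
        fun h => (Finset.mem_filter.1 hj).2 (Subtype.ext h.symm))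
    have h4 : ∑ j ∈ s.preimage (Sigma.mk p) sigma_mk_injective.injOn,
        ((N : ℤ) * c ⟨p, j⟩) • a p j = 0 := by
      have h5 := congrArg (fun x => (N : ℤ) • x) hc
      simp only [Finset.smul_sum, smul_smul, smul_zero] at h5
      rw [← h5]
      refine Finset.sum_preimage (Sigma.mk p) s _ (fun j => ((N : ℤ) * c j) • a j.1 j.2)
        fun j hj hj' => ?_
      have h6 : j.1 ≠ p := fun h => hj' (by
        obtain ⟨q, j⟩ := j
        subst h
        exact ⟨j, rfl⟩)
      obtain ⟨M, hM⟩ : j.1.1 ^ k j.1 j.2 ∣ N :=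
        Finset.dvd_prod_of_mem _ (Finset.mem_filter.2 ⟨hj, h6⟩)
      rw [hM, mul_comm, Nat.cast_mul, mul_comm ((_ : ℕ) : ℤ) (M : ℤ), ← mul_assoc, mul_smul,
        natCast_zsmul, hk, smul_zero]
    have h7 := h2 p _ _ h4 i (Finset.mem_preimage.2 hi)
    rw [mul_smul, natCast_zsmul] at h7
    have h8 : p.1 ^ k p i • (c ⟨p, i⟩ • a p i) = 0 := by rw [smul_comm, hk, smul_zero]
    exact AddMonoid.addOrderOf_eq_one_iff.1 (Nat.eq_one_of_dvd_coprimes hcop
      (addOrderOf_dvd_of_nsmul_eq_zero h8) (addOrderOf_dvd_of_nsmul_eq_zero h7))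
  · set L := AddSubgroup.closure (Set.range fun i : Σ p, ι p => a i.1 i.2) with hL
    have key : ∀ n : ℕ, n ≠ 0 → ∀ x : Q, n • x = 0 → x ∈ L := by
      intro n
      induction n using Nat.recOnPosPrimePosCoprime with
      | prime_pow p m hp _ =>
        intro _ x hx
        refine AddSubgroup.closure_mono ?_ (h3 ⟨p, hp⟩ m x hx)
        rintro _ ⟨i, rfl⟩
        exact ⟨⟨⟨p, hp⟩, i⟩, rfl⟩
      | zero => exact fun h => (h rfl).elim
      | one =>
        intro _ x hx
        rw [one_nsmul] at hx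
        rw [hx]
        exact zero_mem _
      | coprime u w hu hw huw ihu ihw =>
        intro _ x hx
        have e1 := ihu (by omega) (w • x) (by rw [← mul_nsmul', hx])
        have e2 := ihw (by omega) (u • x) (by rw [← mul_nsmul, hx])
        obtain ⟨α, β, hαβ⟩ := Nat.isCoprime_iff_coprime.2 huw
        have : x = α • (u • x) + β • (w • x) := by
          rw [← natCast_zsmul, ← natCast_zsmul, smul_smul, smul_smul, ← add_smul, hαβ, one_smul]
        rw [this]
        exact add_mem (zsmul_mem e2 _) (zsmul_mem e1 _)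
    obtain ⟨n, hn, hx⟩ := isOfFinAddOrder_iff_nsmul_eq_zero.1 (ht x)
    exact key n hn.ne' x hx

theorem kulikov {Q : Type} [AddCommGroup Q] (ht : ∀ x : Q, IsOfFinAddOrder x) {J : Type}
    {H : J → Type} [∀ j, Group (H j)] [∀ j, Finite (H j)] (ψ : Multiplicative Q →* ∀ j, H j)
    (hψ : Function.Injective ψ) (hfin : ∀ x, {j | ψ x j ≠ 1}.Finite) :
    ∃ (J : Type) (C : J → Type) (_ : ∀ j, AddCommGroup (C j)),
      (∀ j, IsAddCyclic (C j)) ∧ Nonempty (Q ≃+ Π₀ j, C j) := by
  let S' : ℕ → AddSubgroup Q := fun n =>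
    { carrier := {x | ∀ j, n < Nat.card (H j) → ψ (Multiplicative.ofAdd x) j = 1}
      zero_mem' := fun j _ => by simp
      add_mem' := fun ha hb j hj => by
        rw [ofAdd_add, map_mul, Pi.mul_apply, ha j hj, hb j hj, mul_one]
      neg_mem' := fun ha j hj => by rw [ofAdd_neg, map_inv, Pi.inv_apply, ha j hj, inv_one] }
  refine directSum_of_chain ht S' (fun a b hab x hx j hj => hx j (hab.trans_lt hj))
    (fun p hp n y h1 h2 => ?_) fun x => ?_
  · apply Multiplicative.ofAdd.injective
    apply hψ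
    funext j
    rw [ofAdd_zero, map_one, Pi.one_apply]
    rcases lt_or_ge n (Nat.card (H j)) with hj | hj
    · exact h1 j hj
    · have h3 : ψ (Multiplicative.ofAdd y) j ^ p ^ (n + 1) = 1 := by
        rw [← Pi.pow_apply, ← map_pow, ← ofAdd_nsmul, h2, ofAdd_zero, map_one, Pi.one_apply]
      obtain ⟨t, -, ht⟩ := (Nat.dvd_prime_pow hp).1 (orderOf_dvd_of_pow_eq_one h3)
      have h4 : t ≤ n := ((Nat.lt_pow_self hp.one_lt).le.trans (ht ▸ orderOf_le_card)).trans hj
      rw [ofAdd_nsmul, map_pow, Pi.pow_apply, ← orderOf_dvd_iff_pow_eq_one, ht]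
      exact pow_dvd_pow _ h4
  · obtain ⟨n, hn⟩ := ((hfin (Multiplicative.ofAdd x)).image fun j => Nat.card (H j)).bddAbove
    refine ⟨n, fun j hj => ?_⟩
    by_contra hne
    exact absurd (hn ⟨j, hne, rfl⟩) (not_le.2 hj)

end Pool.Agent.Work.MP_102156_al.Hedge
end

-- merged part: Pool.Agent.Work.MP_102156_al.Hedge.Tree
section
/-!
If every periodic residually finite FC-group with abelianisation `A` embeds in a restricted
product of finite groups, then `A` is a direct sum of cyclic groups modulo a countable subgroup.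
-/

set_option autoImplicit false

open Subgroup Cardinal Filter

namespace Pool.Agent.Work.MP_102156_al.Hedge

variable {A : Type} [AddCommGroup A]

variable (A) in
/-- the elements divisible by every positive integer -/
def U : Set A := {a | ∀ n : ℕ, n ≠ 0 → ∃ b, n • b = a}

theorem exists_finiteIndex {a : A} (ha : a ∉ U A) :
    ∃ B : AddSubgroup A, B.FiniteIndex ∧ a ∉ B := by
  simp only [U, Set.mem_ofPred_eq, not_forall] at ha
  obtain ⟨n, hn, ha⟩ := ha
  let K : AddSubgroup A := (nsmulAddMonoidHom n : A →+ A).range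
  have h1 : (a : A ⧸ K) ≠ 0 := fun h => ha ((QuotientAddGroup.eq_zero_iff _).1 h)
  obtain ⟨c, hc⟩ := CharacterModule.exists_character_apply_ne_zero_of_ne_zero h1
  let c' : A ⧸ K →+ TT := c
  let χ : A →+ TT := c'.comp (QuotientAddGroup.mk' K)
  have : Finite χ.range := by
    refine Set.Finite.to_subtype (s := (χ.range : Set TT))
      ((AddCircle.finite_torsion (1 : ℚ) (Nat.pos_of_ne_zero hn)).subset ?_)
    rintro _ ⟨b, rfl⟩
    change n • χ b = 0
    rw [← map_nsmul]
    change c' ((n • b : A) : A ⧸ K) = 0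
    rw [(QuotientAddGroup.eq_zero_iff (N := K) (n • b)).2 ⟨b, rfl⟩, map_zero]
  exact ⟨χ.ker, inferInstance, hc⟩

theorem exists_tree {X : Type} (X₁ : Set X) (hX : #X₁ ≤ 𝔠) :
    ∃ τ : ℕ → X → Finset ℕ ⊕ X, (∀ x y, x ≠ y → ∀ᶠ n in atTop, τ n x ≠ τ n y) ∧
      ∀ n, ∀ x ∈ X₁, τ n x ∈ Set.range Sum.inl := by
  classical
  rw [← mk_set_nat] at hX
  obtain ⟨β⟩ := (Cardinal.le_def _ _).1 hX
  refine ⟨fun n x => if h : x ∈ X₁ then Sum.inl ((Finset.range n).filter (· ∈ β ⟨x, h⟩))
    else Sum.inr x, fun x y hxy => ?_, fun n x hx => ?_⟩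
  · by_cases hx : x ∈ X₁ <;> by_cases hy : y ∈ X₁
    · have h1 : β ⟨x, hx⟩ ≠ β ⟨y, hy⟩ := fun h => hxy (congrArg Subtype.val (β.injective h))
      obtain ⟨k, hk⟩ := not_forall.1 fun h => h1 (Set.ext h)
      filter_upwards [eventually_gt_atTop k] with n hn h
      rw [dif_pos hx, dif_pos hy] at h
      have h2 := Finset.ext_iff.1 (Sum.inl_injective h) k
      simp only [Finset.mem_filter, Finset.mem_range, hn, true_and] at h2
      exact hk h2
    · exact Eventually.of_forall fun n => by simp [hx, hy]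
    · exact Eventually.of_forall fun n => by simp [hx, hy]
    · exact Eventually.of_forall fun n => by simp [hx, hy, hxy]
  · simp [hx]

theorem tree (hA : ∀ a : A, IsOfFinAddOrder a) (hF : Forces A) {X : Type} (φ : A →+ (X →₀ TT))
    (hφ : ∀ a ∈ U A, φ a = 0 → a = 0) (X₁ : Set X) (hX : #X₁ ≤ 𝔠) (B : AddSubgroup A)
    (hB : ∀ a ∈ B, ((φ a).support : Set X) ⊆ X₁) : Rep B := by
  classical
  obtain ⟨τ, hτ, hτ1⟩ := exists_tree X₁ hX
  choose S _ _ hS ζ h1 h2 h3 using fun n : ℕ => exists_perfect n.factorial n.factorial_ne_zero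
  let f : ℕ × (Finset ℕ ⊕ X) → A →+ TT := fun i =>
    (Finsupp.applyAddHom i.2).comp ((Finsupp.mapDomain.addMonoidHom (τ i.1)).comp φ)
  have hf : ∀ i a, f i a = Finsupp.mapDomain (τ i.1) (φ a) i.2 := fun _ _ => rfl
  have hord : ∀ (a : A) (k : ℕ), addOrderOf a ≤ k → k.factorial • a = 0 := fun a k hk =>
    addOrderOf_dvd_iff_nsmul_eq_zero.1 (Nat.dvd_factorial (hA a).addOrderOf_pos hk)
  have hfin : ∀ a, {i : ℕ × (Finset ℕ ⊕ X) | i.1.factorial • f i a ≠ 0}.Finite := by
    intro a
    refine ((Set.finite_lt_nat (addOrderOf a)).biUnion fun k _ =>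
      (Finsupp.mapDomain (τ k) (φ a)).support.finite_toSet.image (Prod.mk k)).subset ?_
    rintro ⟨k, t⟩ hi
    refine Set.mem_biUnion (x := k) ?_ ⟨t, ?_, rfl⟩
    · by_contra hk
      exact hi (by rw [← map_nsmul, hord a k (not_lt.1 hk), map_zero])
    · rw [Finset.mem_coe, Finsupp.mem_support_iff]
      intro h
      exact hi (by rw [hf, h, smul_zero])
  have hζ : ∀ n, ζ n 0 = 1 := fun n => by
    have := h2 n 0 0 (smul_zero _) (smul_zero _)
    rw [add_zero] at this
    exact left_eq_mul.1 this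
  let z : A → ∀ i : ℕ × (Finset ℕ ⊕ X), S i.1 := fun a i => ζ i.1 (f i a)
  have hz : Coc z := ⟨fun a i => h1 _ _, fun a b => ((hfin a).union (hfin b)).subset fun i hi => by
    by_contra hcon
    simp only [Set.mem_union, Set.mem_ofPred_eq, not_or, not_not] at hcon
    apply hi
    change ζ i.1 (f i (a + b)) = _
    rw [map_add, h2 _ _ _ hcon.1 hcon.2]⟩
  refine hz.rep (hF _ (hz.torsion hA) hz.fc (hz.res fun a ha hfa => exists_finiteIndex fun haU => ?_)
    (hz.ab fun i => hS _)) B (I₁ := Set.univ ×ˢ Set.range Sum.inl)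
    (Set.countable_univ.prod (Set.countable_range _)) fun a ha i hi => ?_
  · obtain ⟨x, hx⟩ := Finsupp.support_nonempty_iff.2 fun h => ha (hφ a haU h)
    have e1 : ∀ᶠ n in atTop, ∀ x ∈ (φ a).support, ∀ y ∈ (φ a).support, x ≠ y → τ n x ≠ τ n y := by
      simp only [eventually_all_finset]
      intro x _ y _
      by_cases hxy : x = y
      · exact Eventually.of_forall fun n h => absurd hxy h
      · exact (hτ x y hxy).mono fun n h _ => h
    have e2 : ∀ᶠ n in atTop, n ∉ Prod.fst '' {i | z a i ≠ 1} := by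
      rw [← Nat.cofinite_eq_atTop]
      exact (hfa.image _).eventually_cofinite_notMem
    obtain ⟨n, hn1, hn2, hn3⟩ := (e1.and (e2.and (eventually_ge_atTop (addOrderOf a)))).exists
    refine hn2 ⟨(n, τ n x), fun h => Finsupp.mem_support_iff.1 hx ?_, rfl⟩
    have h4 := h3 n _ (by rw [← map_nsmul, hord a n hn3, map_zero]) h
    rwa [hf, Finsupp.mapDomain_apply' _ _ subset_rfl
      (fun x hx y hy h => by_contra fun hxy => hn1 x hx y hy hxy h) hx] at h4
  · change ζ i.1 (f i a) = 1
    have : f i a = 0 := by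
      rw [hf, ← Finsupp.notMem_support_iff]
      intro h
      obtain ⟨x, hx, hxi⟩ := Finset.mem_image.1 (Finsupp.mapDomain_support h)
      exact hi ⟨trivial, hxi ▸ hτ1 i.1 x (hB a ha hx)⟩
    rw [this, hζ]

theorem countable_U (hA : ∀ a : A, IsOfFinAddOrder a) (hF : Forces A) : (U A).Countable := by
  obtain ⟨X, φ, hφ⟩ := exists_emb hA
  by_contra h
  rw [← le_aleph0_iff_set_countable, not_le, ← Order.succ_le_iff, succ_aleph0] at h
  obtain ⟨Y, hY, hcard⟩ := le_mk_iff_exists_subset.1 h
  choose w hw using fun (p : Y × ℕ) => hY p.1.2 (p.2 + 1) p.2.succ_ne_zero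
  let X₁ : Set X := ⋃ p, ((φ (w p)).support : Set X)
  have hX : #X₁ ≤ 𝔠 := by
    refine (mk_iUnion_le _).trans (mul_le_of_le aleph0_le_continuum ?_ ?_)
    · rw [mk_prod, lift_id, lift_id, hcard, mk_nat]
      exact mul_le_of_le aleph0_le_continuum aleph_one_le_continuum aleph0_le_continuum
    · exact (ciSup_le' fun p => le_aleph0_iff_set_countable.2
        (Finset.countable_toSet _)).trans aleph0_le_continuum
  let B : AddSubgroup A := (Finsupp.supported TT ℤ X₁).toAddSubgroup.comap φ
  obtain ⟨J, H, _, _, ψ, h1, h2, -⟩ := tree hA hF φ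
    (fun a _ h => hφ (h.trans (map_zero φ).symm)) X₁ hX B fun a ha => ha
  have hwB : ∀ p, w p ∈ B := fun p => Set.subset_iUnion (fun p => ((φ (w p)).support : Set X)) p
  have h3 : ∀ a ∈ B, ∀ n : ℕ, ψ ((n + 1) • a) = ψ a ^ (n + 1) := by
    intro a ha n
    induction n with
    | zero => simp
    | succ n ih => rw [succ_nsmul, h1 _ (nsmul_mem ha _) a ha, ih, ← pow_succ]
  have h4 : Y ⊆ {a | ψ a = 1} := by
    intro y hy
    funext j
    obtain ⟨n, hn⟩ := Nat.exists_eq_succ_of_ne_zero (Nat.card_pos (α := H j)).ne'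
    have h5 : y = (n + 1) • w (⟨y, hy⟩, n) := (hw (⟨y, hy⟩, n)).symm
    rw [h5, h3 _ (hwB _), Pi.pow_apply, ← Nat.succ_eq_add_one, ← hn, pow_card_eq_one']
    rfl
  have h6 := le_aleph0_iff_set_countable.2 (h2.mono h4)
  rw [hcard] at h6
  exact aleph0_lt_aleph_one.not_ge h6

theorem forward (hA : ∀ a : A, IsOfFinAddOrder a) (hF : Forces A) :
    ∃ A₀ : AddSubgroup A, Countable A₀ ∧ ∃ (J : Type) (C : J → Type) (_ : ∀ j, AddCommGroup (C j)),
      (∀ j, IsAddCyclic (C j)) ∧ Nonempty (A ⧸ A₀ ≃+ Π₀ j, C j) := by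
  classical
  obtain ⟨X, φ, hφ⟩ := exists_emb hA
  let X₁ : Set X := ⋃ a ∈ U A, ((φ a).support : Set X)
  have hX : X₁.Countable := (countable_U hA hF).biUnion fun a _ => Finset.countable_toSet _
  obtain ⟨J, H, _, _, ψ, h1, h2, h3⟩ := tree hA hF ((Finsupp.filterAddHom (· ∈ X₁)).comp φ)
    (fun a ha h => by
      apply hφ
      rw [map_zero]
      ext x
      by_contra hx
      exact hx ((Finsupp.filter_eq_zero_iff _ _).1 h x
        (Set.mem_biUnion ha (Finsupp.mem_support_iff.2 hx))))
    X₁ ((le_aleph0_iff_set_countable.2 hX).trans aleph0_le_continuum) ⊤ fun a _ x hx =>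
      (Finset.mem_filter.1 hx).2
  let χ : A →+ Additive (∀ j, H j) :=
    AddMonoidHom.mk' (fun a => Additive.ofMul (ψ a)) fun a b =>
      congrArg Additive.ofMul (h1 a trivial b trivial)
  refine ⟨χ.ker, h2.to_subtype, kulikov (fun x => ?_)
    (AddMonoidHom.toMultiplicativeLeft (QuotientAddGroup.kerLift χ))
    (QuotientAddGroup.kerLift_injective χ) fun x => ?_⟩
  · induction x using QuotientAddGroup.induction_on with | _ a => ?_
    exact (QuotientAddGroup.mk' χ.ker).isOfFinAddOrder (hA a)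
  · induction x using QuotientAddGroup.induction_on with | _ a => ?_
    exact h3 a

end Pool.Agent.Work.MP_102156_al.Hedge
end
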