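import Mathlib
import Pool.Agent.Work.MP_102156_al.Main
import Pool.Agent.Work.MP_102156_al.Hedge.Tree

-- merged part: Pool.Agent.Work.MP_102156_al.Hedge.Twist
section
/-!
The twisting argument for a homomorphism onto a direct sum of cyclic groups with arbitrary kernel.
-/

set_option autoImplicit false

open Subgroup
open scoped commutatorElement IsMulCommutative

namespace Pool.Agent.Work.MP_102156_al.Hedge

theorem embed_ker (G : Type) [Group G] (ht : IsMulTorsion G) (hG : FC G)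
    (J : Type) [DecidableEq J] (C : J → Type) [∀ j, AddCommGroup (C j)] (c : ∀ j, C j)
    (hc : ∀ j x, x ∈ AddSubgroup.zmultiples (c j)) (α : G →* Multiplicative (Π₀ j, C j))
    (γ : J → G) (hγ : ∀ j, α (γ j) = Multiplicative.ofAdd (DFinsupp.single j (c j)))
    (𝒩 : Set (Subgroup G)) (hN : ∀ N ∈ 𝒩, N.Normal ∧ N.FiniteIndex)
    (hfin : ∀ x ∈ α.ker, {N ∈ 𝒩 | x ∉ N}.Finite) (hsep : ∀ x ∈ α.ker, x ≠ 1 → ∃ N ∈ 𝒩, x ∉ N) :
    SDF G := by
  classical
  have hker : ∀ g, α g = 1 ↔ g ∈ α.ker := fun _ => Iff.rfl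
  have hsingle : ∀ j (n : ℕ), α (γ j ^ n) = Multiplicative.ofAdd (DFinsupp.single j (n • c j)) := by
    intro j n
    rw [map_pow, hγ, ← ofAdd_nsmul, ← DFinsupp.single_smul]
  have hord : ∀ j, IsOfFinAddOrder (c j) := by
    intro j
    obtain ⟨n, hn, hn1⟩ := isOfFinOrder_iff_pow_eq_one.mp (ht (γ j))
    refine isOfFinAddOrder_iff_nsmul_eq_zero.mpr ⟨n, hn, ?_⟩
    have h1 := hsingle j n
    rw [hn1, map_one] at h1
    exact DFinsupp.single_eq_zero.mp (Multiplicative.ofAdd.injective h1.symm)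
  have hCfin : ∀ j, Finite (C j) := by
    intro j
    have h1 := (hord j).finite_zmultiples
    exact Set.finite_univ_iff.mp (h1.subset fun x _ => hc j x)
  have hpow : ∀ j, γ j ^ addOrderOf (c j) ∈ α.ker := by
    intro j
    rw [← hker, hsingle, addOrderOf_nsmul_eq_zero, DFinsupp.single_zero]
    rfl
  have hnormal : ∀ N : 𝒩, (N : Subgroup G).Normal := fun N => (hN N N.2).1
  -- the twisted quotient maps
  have hθ : ∀ N : 𝒩, ∃ θ : G →* center (G ⧸ (N : Subgroup G)),
      (∀ g ∈ α.ker, θ g = 1) ∧ ∀ j, (∀ y : G, ⁅γ j, y⁆ ∈ (N : Subgroup G)) →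
        γ j ^ addOrderOf (c j) ∈ (N : Subgroup G) → (θ (γ j) : G ⧸ (N : Subgroup G)) = γ j := by
    intro N
    have h1 : ∀ j, ∃ φ : C j →+ Additive (center (G ⧸ (N : Subgroup G))),
        (∀ y : G, ⁅γ j, y⁆ ∈ (N : Subgroup G)) → γ j ^ addOrderOf (c j) ∈ (N : Subgroup G) →
          ((φ (c j)).toMul : G ⧸ (N : Subgroup G)) = γ j := by
      intro j
      by_cases h : (∀ y : G, ⁅γ j, y⁆ ∈ (N : Subgroup G)) ∧
          γ j ^ addOrderOf (c j) ∈ (N : Subgroup G)
      · have hz : ((γ j : G) : G ⧸ (N : Subgroup G)) ∈ center (G ⧸ (N : Subgroup G)) := by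
          rw [mem_center_iff]
          intro y
          induction y using QuotientGroup.induction_on with | _ y => ?_
          have h2 : ⁅(QuotientGroup.mk' (N : Subgroup G)) (γ j),
              (QuotientGroup.mk' (N : Subgroup G)) y⁆ = 1 := by
            rw [← map_commutatorElement]
            exact (QuotientGroup.eq_one_iff _).mpr (h.1 y)
          exact (commutatorElement_eq_one_iff_mul_comm.mp h2).symm
        have hdvd : addOrderOf (Additive.ofMul (⟨_, hz⟩ : center (G ⧸ (N : Subgroup G)))) ∣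
            addOrderOf (c j) := by
          rw [addOrderOf_dvd_iff_nsmul_eq_zero, ← ofMul_pow]
          congr 1
          apply Subtype.ext
          exact (QuotientGroup.eq_one_iff _).mpr h.2
        refine ⟨addMonoidHomOfForallMemZMultiples (hc j) hdvd, fun _ _ => ?_⟩
        rw [addMonoidHomOfForallMemZMultiples_apply_gen]
        rfl
      · exact ⟨0, fun h1 h2 => absurd ⟨h1, h2⟩ h⟩
    choose φ hφ using h1
    refine ⟨(AddMonoidHom.toMultiplicativeLeft (DFinsupp.liftAddHom φ)).comp α,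
      fun g hg => ?_, fun j h1 h2 => ?_⟩
    · rw [MonoidHom.comp_apply, (hker g).mpr hg, map_one]
    · rw [MonoidHom.comp_apply, hγ, ← hφ j h1 h2]
      congr 1
      change (DFinsupp.liftAddHom φ (DFinsupp.single j (c j))).toMul = _
      rw [DFinsupp.liftAddHom_apply_single]
  choose θ hθ1 hθ2 using hθ
  let τ : ∀ N : 𝒩, G →* G ⧸ (N : Subgroup G) := fun N => twist (QuotientGroup.mk' _) (θ N)
  have hτ : ∀ (N : 𝒩), ∀ g ∈ α.ker, τ N g = 1 ↔ g ∈ (N : Subgroup G) := by
    intro N g hg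
    change twist _ _ g = 1 ↔ _
    rw [twist_apply, hθ1 N g hg, coe_one, inv_one, mul_one]
    exact QuotientGroup.eq_one_iff g
  have hfin' : ∀ g ∈ α.ker, {N : 𝒩 | g ∉ (N : Subgroup G)}.Finite := by
    intro g hg
    refine ((hfin g hg).preimage (f := ((↑) : 𝒩 → Subgroup G))
      Subtype.val_injective.injOn).subset ?_
    exact fun N hN => ⟨N.2, hN⟩
  let P : Subgroup G :=
    { carrier := {g | {N : 𝒩 | τ N g ≠ 1}.Finite}
      one_mem' := by
        change {N : 𝒩 | τ N 1 ≠ 1}.Finite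
        simp
      mul_mem' := fun {a b} ha hb => (Set.Finite.union ha hb).subset fun N hN => by
        by_contra hcon
        simp only [Set.mem_union, Set.mem_ofPred_eq, not_or, not_not] at hcon
        exact hN (by rw [map_mul, hcon.1, hcon.2, one_mul])
      inv_mem' := fun {a} ha => Set.Finite.subset ha fun N hN h =>
        hN (by rw [map_inv, h, inv_one]) }
  have hPcomm : α.ker ≤ P := fun g hg =>
    (hfin' g hg).subset fun N hN h => hN ((hτ N g hg).mpr h)
  have hPγ : ∀ j, γ j ∈ P := by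
    intro j
    refine (((hG.finite_comm (γ j)).biUnion' (t := fun w _ => {N : 𝒩 | w ∉ (N : Subgroup G)})
      fun w hw => ?_).union (hfin' _ (hpow j))).subset ?_
    · obtain ⟨y, rfl⟩ := hw
      exact hfin' _ (Abelianization.commutator_subset_ker α
        (commutator_mem_commutator (mem_top _) (mem_top _)))
    · intro N hN
      by_contra hcon
      simp only [Set.mem_union, Set.mem_iUnion, Set.mem_ofPred_eq, not_or, not_exists,
        not_not] at hcon
      apply hN
      change twist _ _ _ = 1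
      rw [twist_apply, hθ2 N j (fun y => hcon.1 _ ⟨y, rfl⟩) hcon.2]
      exact mul_inv_cancel _
  have hP : ∀ g, g ∈ P := by
    have h1 : ∀ v : Π₀ j, C j, ∃ g ∈ P, α g = Multiplicative.ofAdd v := by
      intro v
      induction v using DFinsupp.induction with
      | h0 => exact ⟨1, one_mem _, map_one α⟩
      | ha j b v _ _ ih =>
        obtain ⟨g, hg, hgv⟩ := ih
        obtain ⟨n, rfl⟩ := AddSubgroup.mem_zmultiples_iff.mp (hc j b)
        refine ⟨γ j ^ n * g, mul_mem (zpow_mem (hPγ j) n) hg, ?_⟩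
        rw [map_mul, map_zpow, hγ, hgv, ← ofAdd_zsmul, ← DFinsupp.single_smul]
        rfl
    intro g
    obtain ⟨g', hg', hgg'⟩ := h1 (α g).toAdd
    have h2 : g'⁻¹ * g ∈ α.ker := by
      rw [← hker, map_mul, map_inv, hgg']
      exact inv_mul_cancel _
    exact (mul_mem_cancel_left (inv_mem hg')).mp (hPcomm h2)
  let H : 𝒩 ⊕ J → Type := fun i => match i with
    | Sum.inl N => G ⧸ (N : Subgroup G)
    | Sum.inr j => Multiplicative (C j)
  let instH : ∀ i, Group (H i) := fun i => match i with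
    | Sum.inl N => inferInstanceAs (Group (G ⧸ (N : Subgroup G)))
    | Sum.inr j => inferInstanceAs (Group (Multiplicative (C j)))
  let fs : ∀ i, G →* H i := fun i => match i with
    | Sum.inl N => τ N
    | Sum.inr j => (AddMonoidHom.toMultiplicative (DFinsupp.evalAddMonoidHom j)).comp α
  refine ⟨𝒩 ⊕ J, H, instH, fun i => ?_, MonoidHom.pi fs, ?_, fun g => ?_⟩
  · rcases i with N | j
    · have := (hN N N.2).2
      exact inferInstanceAs (Finite (G ⧸ (N : Subgroup G)))
    · exact inferInstanceAs (Finite (Multiplicative (C j)))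
  · rw [injective_iff_map_eq_one]
    intro g hg
    have h1 : g ∈ α.ker := by
      rw [← hker]
      apply Multiplicative.toAdd.injective
      ext j
      exact congrArg Multiplicative.toAdd (congrFun hg (Sum.inr j))
    by_contra hne
    obtain ⟨N, hN𝒩, hgN⟩ := hsep g h1 hne
    exact hgN ((hτ ⟨N, hN𝒩⟩ g h1).mp (congrFun hg (Sum.inl ⟨N, hN𝒩⟩)))
  · refine ((Set.Finite.image Sum.inl (hP g)).union
      ((α g).toAdd.support.finite_toSet.image Sum.inr)).subset ?_
    rintro (N | j) hi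
    · exact Or.inl ⟨N, hi, rfl⟩
    · refine Or.inr ⟨j, ?_, rfl⟩
      rw [Finset.mem_coe, DFinsupp.mem_support_iff]
      exact fun h => hi (congrArg Multiplicative.ofAdd h)

end Pool.Agent.Work.MP_102156_al.Hedge
end

-- merged part: Pool.Agent.Work.MP_102156_al.Hedge.Conv
section
/-!
If the abelianisation is a direct sum of cyclic groups modulo a countable subgroup, then the
group embeds in a restricted direct product of finite groups.
-/

set_option autoImplicit false

open Subgroup Cardinal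
open scoped commutatorElement

namespace Pool.Agent.Work.MP_102156_al.Hedge

variable {G : Type} [Group G]

theorem exists_closed_countable (hG : FC G) {T : Set G} (hT : T.Countable) :
    ∃ H : Subgroup G, Closed H ∧ (H : Set G).Countable ∧ T ⊆ H := by
  obtain ⟨cl, -, hsub, hclosed, hcard⟩ := exists_closure hG
  exact ⟨cl T, hclosed T, le_aleph0_iff_set_countable.1 ((hcard T).trans
    (max_le le_rfl (le_aleph0_iff_set_countable.2 hT))), hsub T⟩

theorem closed_top : Closed (⊤ : Subgroup G) where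
  normal := inferInstance
  cover := fun _ _ g => ⟨g, mem_top g, by rw [inv_mul_cancel]; exact one_mem _⟩
  wit := fun F _ e l _ hl => by simpa using hl

theorem sep_closed (hG : FC G) (hs : Sep G) {H : Subgroup G} [H.Normal] (hH : Closed H) :
    Sep (G ⧸ H) := by
  refine sep_quotient H fun x hx hxH => ?_
  obtain ⟨l, hl, d, hd, rfl⟩ := mem_sup_of_normal_right.mp (hH.commutator_le_sup hG hx)
  have hlH := R_zero_le H hl
  have hdH : d ∉ H := fun h => hxH (mul_mem hlH h)
  obtain ⟨N, hN, hN', hle, hdN⟩ := hH.exists_normal hG (K := ⊤) le_top hd.1 fun h => by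
    obtain ⟨l', hl', d', hd', rfl⟩ := mem_sup_of_normal_right.mp h
    rw [closed_top.eq_one hs (mem_top d') hd', mul_one] at hdH
    exact hdH (R_zero_le H hl')
  have hdB : d ∉ H ⊔ (N ⊓ R Set.univ N.index) := by
    intro h
    obtain ⟨k, hk, n, hn, hkn⟩ := mem_sup_of_normal_right.mp h
    have h1 : d ∈ R Set.univ N.index :=
      commutator_le.mpr (fun a _ g _ => comm_mem_R (Set.mem_univ a) g N.index) hd.1
    have h2 : k ∈ R Set.univ N.index :=
      (mul_mem_cancel_right (mem_inf.1 hn).2).1 (hkn ▸ h1)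
    have h3 := hH.wit ∅ (by simp) N.index k hk (R_mono (fun a _ b hb => by simp at hb) _ h2)
    have h4 : k ∈ N := R_le (fun a ha g => hle (mem_sup_left (comm_mem_R ha.2 g 0)))
      (fun g => N.pow_index_mem g) h3
    exact hdN (hkn ▸ mul_mem h4 hn.1)
  obtain ⟨M, hM, hM', hBM, hdM⟩ := exists_normal_ge (H ⊔ (N ⊓ R Set.univ N.index)) N hN'
    (fun a ha g => mem_sup_right ⟨by
      rw [commutatorElement_def, mul_assoc, mul_assoc, ← mul_assoc g]
      exact mul_mem ha (hN.conj_mem _ (inv_mem ha) g), comm_mem_R (Set.mem_univ a) g _⟩)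
    hN'.index_ne_zero (fun g => mem_sup_right ⟨N.pow_index_mem g, pow_mem_R _ g _⟩) hdB
  exact ⟨M, hM, hM', le_sup_left.trans hBM, fun h =>
    hdM ((mul_mem_cancel_left (hBM (mem_sup_left hlH))).1 h)⟩

theorem exists_normal_D (hG : FC G)
    (hres : ∀ g : G, g ≠ 1 → ∃ N : Subgroup G, N.Normal ∧ N.FiniteIndex ∧ g ∉ N)
    {H : Subgroup G} (hH : Closed H) {s : Set G} (hs : s.Finite) (hsH : s ⊆ H) :
    ∃ N : Subgroup G, N.Normal ∧ N.FiniteIndex ∧ D H ≤ N ∧ ∀ x ∈ s, x ∈ N → x = 1 := by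
  classical
  have h1 : ∀ x : G, ∃ N : Subgroup G, N.Normal ∧ N.FiniteIndex ∧ D H ≤ N ∧
      (x ∈ s → x ∈ N → x = 1) := by
    intro x
    by_cases hx : x ∈ s ∧ x ≠ 1
    · obtain ⟨N₀, _, _, h3⟩ := hres x hx.2
      obtain ⟨F, hF, e, he, h4⟩ := hH.exists_le N₀
      obtain ⟨N, h5, h6, h7, h8⟩ := exists_normal_ge (R (centralizer (F : Set G) : Set G) e)
        (centralizer (F : Set G)) (hG.finiteIndex_centralizer F.finite_toSet)
        (fun a ha g => comm_mem_R ha g e) he (fun g => pow_mem_R _ g e)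
        fun h => h3 (h4 x (hsH hx.1) h)
      exact ⟨N, h5, h6, fun d hd => h7 (hd.2 F hF e he), fun _ h => absurd h h8⟩
    · refine ⟨⊤, inferInstance, inferInstance, le_top, fun h1 _ => ?_⟩
      by_contra h2
      exact hx ⟨h1, h2⟩
  choose N h1 h2 h3 h4 using h1
  refine ⟨⨅ x ∈ hs.toFinset, N x, ?_, finiteIndex_iInf' _ fun x _ => h2 x,
    le_iInf₂ fun x _ => h3 x, fun x hx hxN => ?_⟩
  · refine ⟨fun a ha g => ?_⟩
    simp only [mem_iInf] at ha ⊢
    exact fun x hx => (h1 x).conj_mem a (ha x hx) g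
  · simp only [mem_iInf] at hxN
    exact h4 x hx (hxN x (hs.mem_toFinset.mpr hx))

theorem hall_family (ht : IsMulTorsion G) (hG : FC G)
    (hres : ∀ g : G, g ≠ 1 → ∃ N : Subgroup G, N.Normal ∧ N.FiniteIndex ∧ g ∉ N)
    {H : Subgroup G} (hH : Closed H) (hc : (H : Set G).Countable) :
    ∃ 𝒩 : Set (Subgroup G), (∀ N ∈ 𝒩, N.Normal ∧ N.FiniteIndex ∧ D H ≤ N) ∧
      (∀ x ∈ H, {N ∈ 𝒩 | x ∉ N}.Finite) ∧ ∀ x ∈ H, x ≠ 1 → ∃ N ∈ 𝒩, x ∉ N := by
  classical
  have := hH.normal
  obtain ⟨x, hx⟩ := hc.exists_eq_range ⟨1, one_mem _⟩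
  let F : ℕ → Subgroup G := fun n => normalClosure (x '' {k | k < n})
  have hFfin : ∀ n, (F n : Set G).Finite := fun n =>
    hG.finite_normalClosure ht ((Set.finite_lt_nat n).image x)
  have hFle : ∀ n, F n ≤ H := fun n => normalClosure_le_normal (by
    rw [hx]
    exact Set.image_subset_range _ _)
  have hFmono : Monotone F := fun a b hab =>
    normalClosure_mono (Set.image_mono fun k hk => lt_of_lt_of_le hk hab)
  have hxF : ∀ k n, k < n → x k ∈ F n := fun k n h => subset_normalClosure ⟨k, h, rfl⟩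
  choose N hN1 hN2 hN4 hN3 using fun n => exists_normal_D hG hres hH (hFfin (n + 1)) (hFle (n + 1))
  refine ⟨Set.range fun n => F n ⊔ N n, ?_, fun y hy => ?_, fun y hy hne => ?_⟩
  · rintro _ ⟨n, rfl⟩
    have := hN1 n
    have := hN2 n
    exact ⟨inferInstance, finiteIndex_of_le le_sup_right, (hN4 n).trans le_sup_right⟩
  · have hy' : y ∈ Set.range x := hx ▸ hy
    obtain ⟨k, rfl⟩ := hy'
    refine (((Set.finite_le_nat k).image fun n => F n ⊔ N n)).subset ?_
    rintro _ ⟨⟨n, rfl⟩, hn⟩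
    refine ⟨n, ?_, rfl⟩
    by_contra hlt
    exact hn (mem_sup_left (hxF k n (not_le.mp hlt)))
  · have hy' : y ∈ Set.range x := hx ▸ hy
    obtain ⟨k, rfl⟩ := hy'
    have hex : ∃ n, x k ∈ F (n + 1) := ⟨k, hxF k _ (Nat.lt_succ_self k)⟩
    set n := Nat.find hex with hn
    have h1 : x k ∈ F (n + 1) := Nat.find_spec hex
    have h2 : x k ∉ F n := by
      rcases Nat.eq_zero_or_pos n with h0 | h0
      · rw [h0]
        intro h
        apply hne
        simpa [F] using h
      · have := Nat.find_min hex (m := n - 1) (by omega)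
        rwa [Nat.sub_add_cancel h0] at this
    refine ⟨_, ⟨n, rfl⟩, fun h => h2 ?_⟩
    have := hN1 n
    obtain ⟨f, hf, z, hz, hfz⟩ := mem_sup_of_normal_right.mp h
    have h3 : z ∈ F (n + 1) := by
      have : z = f⁻¹ * x k := by rw [← hfz]; group
      rw [this]
      exact mul_mem (inv_mem (hFmono (Nat.le_succ n) hf)) h1
    rw [← hfz, hN3 n z h3 hz, mul_one]
    exact hf

theorem family (ht : IsMulTorsion G) (hG : FC G)
    (hres : ∀ g : G, g ≠ 1 → ∃ N : Subgroup G, N.Normal ∧ N.FiniteIndex ∧ g ∉ N)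
    {H : Subgroup G} (hH : Closed H) (hc : (H : Set G).Countable) :
    ∃ 𝒩 : Set (Subgroup G), (∀ N ∈ 𝒩, N.Normal ∧ N.FiniteIndex) ∧
      (∀ x ∈ H ⊔ commutator G, {N ∈ 𝒩 | x ∉ N}.Finite) ∧
      ∀ x ∈ H ⊔ commutator G, x ≠ 1 → ∃ N ∈ 𝒩, x ∉ N := by
  have := hH.normal
  have hs : Sep G := fun x _ hx => hres x hx
  obtain ⟨𝒩₁, a1, a2, a3⟩ := hall_family ht hG hres hH hc
  obtain ⟨𝒩₂, b1, b2, b3⟩ := (good (ht.of_surjective (QuotientGroup.mk'_surjective H))
    (hG.quotient H) (sep_closed hG hs hH)).pullback H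
  have hle : H ⊔ commutator G ≤ H ⊔ D H :=
    sup_le le_sup_left ((hH.commutator_le_sup hG).trans (sup_le_sup_right (R_zero_le H) _))
  refine ⟨𝒩₁ ∪ 𝒩₂, ?_, fun x hx => ?_, fun x hx hne => ?_⟩
  · rintro N (hN | hN)
    exacts [⟨(a1 N hN).1, (a1 N hN).2.1⟩, ⟨(b1 N hN).1, (b1 N hN).2.1⟩]
  · have : H ⊔ D H ≤ pointFinite (𝒩₁ ∪ 𝒩₂) := by
      refine sup_le (fun y hy => (a2 y hy).subset ?_) fun y hy => (b2 y hy.1).subset ?_
      · rintro N ⟨hN | hN, hyN⟩
        exacts [⟨hN, hyN⟩, absurd ((b1 N hN).2.2 hy) hyN]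
      · rintro N ⟨hN | hN, hyN⟩
        exacts [absurd ((a1 N hN).2.2 hy) hyN, ⟨hN, hyN⟩]
    exact this (hle hx)
  · obtain ⟨h, hh, d, hd, rfl⟩ := mem_sup_of_normal_right.mp (hle hx)
    by_cases hd1 : d ∈ H
    · obtain ⟨N, hN, hxN⟩ := a3 _ (mul_mem hh hd1) hne
      exact ⟨N, Or.inl hN, hxN⟩
    · obtain ⟨N, hN, hxN⟩ := b3 d hd.1 hd1
      exact ⟨N, Or.inr hN, fun h1 => hxN ((mul_mem_cancel_left ((b1 N hN).2.2 hh)).1 h1)⟩

theorem backward {A : Type} [AddCommGroup A] (A₀ : AddSubgroup A) (hA₀ : Countable A₀) (J : Type)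
    (C : J → Type) [∀ j, AddCommGroup (C j)] (hC : ∀ j, IsAddCyclic (C j))
    (e : A ⧸ A₀ ≃+ Π₀ j, C j) : Forces A := by
  classical
  rintro G _ ht hG hres ⟨ψ⟩
  choose c hc using fun j => (hC j).exists_generator
  let β : G →* Multiplicative A :=
    (AddMonoidHom.toMultiplicativeRight ψ.toAddMonoidHom).comp Abelianization.of
  have hβ : Function.Surjective β := ψ.surjective.comp QuotientGroup.mk_surjective
  have hβ1 : ∀ g, β g = 1 → g ∈ commutator G := fun g h => by
    rw [← Abelianization.ker_of]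
    exact Additive.ofMul.injective (ψ.map_eq_zero_iff.mp (congrArg Multiplicative.toAdd h))
  let α : G →* Multiplicative (Π₀ j, C j) :=
    (AddMonoidHom.toMultiplicative (e.toAddMonoidHom.comp (QuotientAddGroup.mk' A₀))).comp β
  have hα : Function.Surjective α := e.surjective.comp (QuotientAddGroup.mk_surjective.comp hβ)
  choose γ hγ using fun j => hα (Multiplicative.ofAdd (DFinsupp.single j (c j)))
  choose t hT using fun a : A₀ => hβ (Multiplicative.ofAdd a.1)
  obtain ⟨H, hH, hcount, hTH⟩ := exists_closed_countable hG (Set.countable_range t)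
  obtain ⟨𝒩, h1, h2, h3⟩ := family ht hG hres hH hcount
  have hker : α.ker ≤ H ⊔ commutator G := by
    intro g hg
    have h6 : (β g).toAdd ∈ A₀ := (QuotientAddGroup.eq_zero_iff _).1
      (e.map_eq_zero_iff.1 (congrArg Multiplicative.toAdd hg))
    have h7 := hβ1 ((t ⟨_, h6⟩)⁻¹ * g) (by
      rw [map_mul, map_inv, hT]
      exact inv_mul_cancel _)
    exact (mul_mem_cancel_left (inv_mem (mem_sup_left (hTH ⟨_, rfl⟩)))).1 (mem_sup_right h7)
  exact embed_ker G ht hG J C c hc α γ hγ 𝒩 h1 (fun x hx => h2 x (hker hx))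
    fun x hx => h3 x (hker hx)

end Pool.Agent.Work.MP_102156_al.Hedge
end
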